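import Pool.Agent.ASE.Stmts8
import Pool.Agent.ASD.Stmts3

/-!
# Squad ASE, row CHG: the characters of `g` which are fixed by two elements of the inertial group
-/

open scoped BigOperators

set_option autoImplicit false

noncomputable section

namespace Pool.Agent.PP.SE.H49

open Pool.Agent.Helper51_AWC Pool.Agent.Helper79_WRA Pool.Agent.PP Pool.Agent.PP.KF
open Pool.Agent.PP.K9 Pool.Agent.PP.K9.H97 Pool.Agent.PP.H75 Pool.Agent.PP.T3 Pool.Agent.PP.SO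
open Pool.Agent.PP.SD

attribute [local instance] Ideal.Quotient.field

/-- the number of the linear characters fixed by two automorphisms of a group of order prime to `ℓ` -/
theorem fix_cnt {V₀ : Type} [CommGroup V₀] [Finite V₀] {ℓ : ℕ} [hℓ : Fact ℓ.Prime]
    (hex : ∀ v : V₀, v ^ ℓ = 1) {E₀ : Subgroup (MulAut V₀)} (hcp : ¬ ℓ ∣ Nat.card E₀)
    {σ τ : MulAut V₀} (hσ : σ ∈ E₀) (hτ : τ ∈ E₀) :
    {f : V₀ → ℂ | f ∈ lin V₀ ∧ (∀ x, f (σ x) = f x) ∧ ∀ x, f (τ x) = f x}.ncard =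
      {v : V₀ | σ v = v ∧ τ v = v}.ncard := by
  classical
  obtain ⟨A, hA⟩ : ∃ A : Subgroup (MulAut V₀), A = Subgroup.closure {σ, τ} := ⟨_, rfl⟩
  have hσA : σ ∈ A := by
    rw [hA]
    exact Subgroup.subset_closure (Set.mem_insert _ _)
  have hτA : τ ∈ A := by
    rw [hA]
    exact Subgroup.subset_closure (Set.mem_insert_of_mem _ (Set.mem_singleton _))
  have hAE : A ≤ E₀ := by
    rw [hA, Subgroup.closure_le]
    rintro _ (rfl | rfl)
    exacts [hσ, hτ]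
  have : Fintype A := Fintype.ofFinite A
  have hn : ¬ ℓ ∣ Fintype.card A := by
    intro h
    apply hcp
    rw [← Nat.card_eq_fintype_card] at h
    exact h.trans (Subgroup.card_dvd_of_le hAE)
  obtain ⟨m, -, hm⟩ := Nat.exists_mul_mod_eq_one_of_coprime
    (((Nat.Prime.coprime_iff_not_dvd hℓ.out).2 hn).symm) hℓ.out.one_lt
  have hpow : ∀ v : V₀, v ^ (Fintype.card A * m) = v := by
    intro v
    rw [← Nat.div_add_mod (Fintype.card A * m) ℓ, hm, pow_add, pow_mul, hex, one_pow, one_mul,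
      pow_one]
  let P : V₀ →* V₀ :=
    { toFun := fun v => (∏ a : A, (a : MulAut V₀) v) ^ m
      map_one' := by simp
      map_mul' := fun v w => by simp only [map_mul, Finset.prod_mul_distrib, mul_pow] }
  have hPd : ∀ v, P v = (∏ a : A, (a : MulAut V₀) v) ^ m := fun v => rfl
  have hP1 : ∀ b ∈ A, ∀ v, P (b v) = P v := by
    intro b hb v
    rw [hPd, hPd]
    congr 1
    exact Fintype.prod_equiv (Equiv.mulRight (⟨b, hb⟩ : A)) _ _ (fun a => rfl)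
  have hP2 : ∀ b ∈ A, ∀ v, b (P v) = P v := by
    intro b hb v
    rw [hPd, map_pow, map_prod]
    congr 1
    exact Fintype.prod_equiv (Equiv.mulLeft (⟨b, hb⟩ : A)) _ _ (fun a => rfl)
  have hfix : ∀ v, σ v = v → τ v = v → ∀ a ∈ A, a v = v := by
    intro v h1 h2
    have h3 : A ≤ MulAction.stabilizer (MulAut V₀) v := by
      rw [hA, Subgroup.closure_le]
      rintro _ (rfl | rfl)
      exacts [h1, h2]
    exact fun a ha => h3 ha
  have hP3 : ∀ v, σ v = v → τ v = v → P v = v := by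
    intro v h1 h2
    have h3 : ∀ a : A, (a : MulAut V₀) v = v := fun a => hfix v h1 h2 a a.2
    rw [hPd, Finset.prod_congr rfl (fun a _ => h3 a), Finset.prod_const, Finset.card_univ,
      ← pow_mul, hpow]
  have hf : ∀ f : V₀ → ℂ, (∀ x, f (σ x) = f x) → (∀ x, f (τ x) = f x) →
      ∀ a ∈ A, ∀ x, f (a x) = f x := by
    intro f h1 h2 a ha
    rw [hA] at ha
    refine Subgroup.closure_induction (p := fun a _ => ∀ x, f (a x) = f x) ?_ ?_ ?_ ?_ ha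
    · rintro _ (rfl | rfl)
      exacts [h1, h2]
    · intro x
      rfl
    · intro a b _ _ ha hb x
      rw [MulAut.mul_apply, ha, hb]
    · intro a _ ha x
      have h := ha (a⁻¹ x)
      rw [MulAut.apply_inv_self] at h
      exact h.symm
  have hf2 : ∀ f ∈ lin V₀, (∀ x, f (σ x) = f x) → (∀ x, f (τ x) = f x) → ∀ v, f (P v) = f v := by
    intro f hl h1 h2 v
    let F : V₀ →* ℂ := ⟨⟨f, hl.1⟩, hl.2⟩
    have hF : ∀ x, F x = f x := fun _ => rfl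
    rw [← hF, ← hF, hPd, map_pow, map_prod]
    have h3 : ∀ a : A, F ((a : MulAut V₀) v) = F v := fun a => hf f h1 h2 a a.2 v
    rw [Finset.prod_congr rfl (fun a _ => h3 a), Finset.prod_const, Finset.card_univ, ← pow_mul,
      ← map_pow, hpow]
  let Cs : Subgroup V₀ :=
    { carrier := {v | σ v = v ∧ τ v = v}
      one_mem' := ⟨map_one _, map_one _⟩
      mul_mem' := fun {a b} ha hb => ⟨by rw [map_mul, ha.1, hb.1], by rw [map_mul, ha.2, hb.2]⟩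
      inv_mem' := fun {a} ha => ⟨by rw [map_inv, ha.1], by rw [map_inv, ha.2]⟩ }
  have hPC : ∀ v, P v ∈ Cs := fun v => ⟨hP2 σ hσA v, hP2 τ hτA v⟩
  let Φ : {f : V₀ → ℂ | f ∈ lin V₀ ∧ (∀ x, f (σ x) = f x) ∧ ∀ x, f (τ x) = f x} ≃
      (Cs →* ℂˣ) :=
    { toFun := fun f => MonoidHom.toHomUnits
        ((⟨⟨f.1, f.2.1.1⟩, f.2.1.2⟩ : V₀ →* ℂ).comp Cs.subtype)
      invFun := fun μ => ⟨fun v => (μ ⟨P v, hPC v⟩ : ℂ), ⟨by
        have h1 : (⟨P 1, hPC 1⟩ : Cs) = 1 := Subtype.ext (map_one P)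
        beta_reduce
        rw [h1, map_one]
        rfl, fun v w => by
        have h1 : (⟨P (v * w), hPC (v * w)⟩ : Cs) = ⟨P v, hPC v⟩ * ⟨P w, hPC w⟩ :=
          Subtype.ext (map_mul P v w)
        beta_reduce
        rw [h1, map_mul]
        rfl⟩, fun x => by
        have h1 : (⟨P (σ x), hPC (σ x)⟩ : Cs) = ⟨P x, hPC x⟩ := Subtype.ext (hP1 σ hσA x)
        beta_reduce
        rw [h1], fun x => by
        have h1 : (⟨P (τ x), hPC (τ x)⟩ : Cs) = ⟨P x, hPC x⟩ := Subtype.ext (hP1 τ hτA x)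
        beta_reduce
        rw [h1]⟩
      left_inv := by
        rintro ⟨f, h0, h1, h2⟩
        apply Subtype.ext
        funext v
        exact hf2 f h0 h1 h2 v
      right_inv := by
        intro μ
        ext c
        change (μ ⟨P c, hPC c⟩ : ℂ) = μ c
        have h1 : (⟨P c, hPC c⟩ : Cs) = c := Subtype.ext (hP3 c c.2.1 c.2.2)
        rw [h1] }
  have h5 : Nat.card (Cs →* ℂˣ) = Nat.card Cs :=
    CommGroup.card_monoidHom_of_hasEnoughRootsOfUnity Cs ℂ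
  rw [← Nat.card_coe_set_eq, Nat.card_congr Φ, h5]
  rfl

section sd

variable {ℓ : ℕ} [hℓ : Fact ℓ.Prime] {M : Ideal (integralClosure ℤ ℂ)} [M.IsMaximal]
  {V₀ G : Type} [CommGroup V₀] [Finite V₀] [Group G] [Finite G] {E₀ : Subgroup (MulAut V₀)}

omit hℓ [Finite V₀] in
/-- the local block of `V₀` is `g` -/
theorem b_top {B : Bk (FF M) V₀ G} (hB : Sb ℓ M E₀ B) : B.b ⊤ = B.g := by
  have hb : Bx (Subgroup.centralizer (B.i.range : Set G)) (B.b ⊤) := by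
    rw [MonoidHom.range_eq_map]
    exact (hB.lb ⊤).blk
  have h1 : br B.i.range (B.b ⊤) = B.b ⊤ := by
    funext t
    unfold br
    split_ifs with h
    · rfl
    · exact (hb.supp t h).symm
  have h2 := (hB.lb ⊤).gam
  rw [h1] at h2
  rcases hb.dich hB.ld.gam with h | h
  · exact h
  · exfalso
    apply hB.ld.gam.blk.2.1
    rw [h] at h2
    funext t
    exact (congrFun h2 (t : G)).symm

theorem rw_top (hFq : Fq ℓ V₀ E₀) : Rw E₀ (⊤ : Subgroup V₀) := by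
  refine ⟨?_, ?_⟩
  · intro h
    have h1 : Nat.card (⊤ : Subgroup V₀) = 1 := by rw [h, Subgroup.card_bot]
    rw [Subgroup.card_top, hFq.cd] at h1
    have h3 := hℓ.out.two_le
    nlinarith
  · intro σ _ h
    apply MulEquiv.ext
    intro v
    exact h v (Subgroup.mem_top v)

omit hℓ [Finite V₀] [Finite G] in
theorem ux_top (B : Bk (FF M) V₀ G) (x : V₀) : ux B.U ⊤ x = 1 := if_pos (Subgroup.mem_top x)

/-- `χ` is fixed by `t` iff its linear character is fixed by `σ` -/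
theorem fix_iff (hM : (ℓ : integralClosure ℤ ℂ) ∈ M) (h2 : ℓ ≠ 2) (nsd : NsdStmt)
    (cjd : CjdStmt) (hFq : Fq ℓ V₀ E₀) {B : Bk (FF M) V₀ G} (hB : Sd ℓ M E₀ B)
    {σ : MulAut V₀} (hσ : σ ∈ E₀) {t : G} (ht : t ∈ Tg B.i.range B.g)
    (hact : ∀ v, t * B.i v * t⁻¹ = B.i (σ v)) {χ : G → ℂ} (hχ : χ ∈ Ch B ⊤) :
    (∀ y, χ (t * y * t⁻¹) = χ y) ↔ ∀ x, lam B ⊤ χ (σ x) = lam B ⊤ χ x := by
  obtain ⟨-, c2, -, -, c5, -⟩ := cjd ℓ M hM h2 V₀ G E₀ hFq B hB.toSb σ hσ t ht hact ⊤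
  have htop : (⊤ : Subgroup V₀).map σ.toMonoidHom = ⊤ :=
    Subgroup.map_top_of_surjective _ σ.surjective
  rw [htop] at c2 c5
  obtain ⟨-, -, -, n4, -⟩ := nsd ℓ M hM h2 V₀ G E₀ hFq B hB ⊤ (rw_top hFq)
  constructor
  · intro h x
    unfold lam
    rw [ux_top, ux_top]
    congr 1
    unfold SO.cv
    congr 1
    rw [← finsum_comp_equiv (MulAut.conj t).toEquiv]
    apply finsum_congr
    intro y
    change fc B ⊤ (σ x) (t * y * t⁻¹) * χ (t * y * t⁻¹) = _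
    rw [c5, h]
  · intro h y
    by_cases hy : y ∈ B.C ⊤
    · rw [n4 χ hχ _ ((c2 y).2 hy), n4 χ hχ _ hy]
      congr 1
      rw [← finsum_comp_equiv σ.toEquiv]
      apply finsum_congr
      intro x
      change starRingEnd ℂ (lam B ⊤ χ (σ x)) / ((ux B.U ⊤ (σ x) : ℚ) : ℂ) *
        fc B ⊤ (σ x) (t * y * t⁻¹)⁻¹ = _
      have h3 : (t * y * t⁻¹)⁻¹ = t * y⁻¹ * t⁻¹ := by group
      rw [h3, c5, h, ux_top, ux_top]
    · rw [hχ.1 y hy, hχ.1 _ (fun h' => hy ((c2 y).1 h'))]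

/-- CHG for a datum with `Sd` -/
theorem chg_sd (hM : (ℓ : integralClosure ℤ ℂ) ∈ M) (h2 : ℓ ≠ 2) (nsd : NsdStmt)
    (cjd : CjdStmt) (hFq : Fq ℓ V₀ E₀) {B : Bk (FF M) V₀ G} (hB : Sd ℓ M E₀ B)
    {σ τ : MulAut V₀} (hσ : σ ∈ E₀) (hτ : τ ∈ E₀) {t u : G} (ht : t ∈ Tg B.i.range B.g)
    (hu : u ∈ Tg B.i.range B.g) (hact : ∀ v, t * B.i v * t⁻¹ = B.i (σ v))
    (hact' : ∀ v, u * B.i v * u⁻¹ = B.i (τ v)) :
    {χ | χ ∈ Ch B ⊤ ∧ (∀ y, χ (t * y * t⁻¹) = χ y) ∧ ∀ y, χ (u * y * u⁻¹) = χ y}.ncard =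
      {v : V₀ | σ v = v ∧ τ v = v}.ncard := by
  rw [← fix_cnt hFq.ex hFq.cp hσ hτ]
  obtain ⟨n1, -⟩ := nsd ℓ M hM h2 V₀ G E₀ hFq B hB ⊤ (rw_top hFq)
  have h3 : {f : V₀ → ℂ | f ∈ lin V₀ ∧ (∀ x, f (σ x) = f x) ∧ ∀ x, f (τ x) = f x} =
      lam B ⊤ '' {χ | χ ∈ Ch B ⊤ ∧ (∀ y, χ (t * y * t⁻¹) = χ y) ∧
        ∀ y, χ (u * y * u⁻¹) = χ y} := by
    ext f
    constructor
    · rintro ⟨h1, h4, h5⟩
      obtain ⟨χ, hχ, rfl⟩ := n1.2.2 h1
      exact ⟨χ, ⟨hχ, (fix_iff hM h2 nsd cjd hFq hB hσ ht hact hχ).2 h4,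
        (fix_iff hM h2 nsd cjd hFq hB hτ hu hact' hχ).2 h5⟩, rfl⟩
    · rintro ⟨χ, ⟨hχ, h4, h5⟩, rfl⟩
      exact ⟨n1.1 hχ, (fix_iff hM h2 nsd cjd hFq hB hσ ht hact hχ).1 h4,
        (fix_iff hM h2 nsd cjd hFq hB hτ hu hact' hχ).1 h5⟩
  rw [h3, Set.ncard_image_of_injOn]
  intro χ hχ χ' hχ' h
  exact n1.2.1 hχ.1 hχ'.1 h

end sd

/-- CHG -/
theorem chg (nsd : NsdStmt) (syd : SydStmt) (cjd : CjdStmt) : ChgStmt := by
  intro ℓ hℓ M _ hM h2 V₀ G _ _ _ _ E₀ hFq B hB σ hσ τ hτ t ht u hu hact hact'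
  obtain ⟨B', he, hg, hi, hB'⟩ := syd ℓ M hM V₀ G E₀ hFq B.e B.g B.i hB.inj hB.ld hB.act hB.sur
  have hb : B'.b ⊤ = B.b ⊤ := by rw [b_top hB'.toSb, b_top hB, hg]
  have hCh : Ch B' ⊤ = Ch B ⊤ := by
    unfold Ch Bk.C
    rw [hi, hb]
  rw [← hCh]
  have hTg : Tg B'.i.range B'.g = Tg B.i.range B.g := by rw [hi, hg]
  refine chg_sd hM h2 nsd cjd hFq hB' hσ hτ ?_ ?_ ?_ ?_
  · rw [hTg]
    exact ht
  · rw [hTg]
    exact hu
  · rw [hi]
    exact hact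
  · rw [hi]
    exact hact'

end Pool.Agent.PP.SE.H49
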