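import Pool.Agent.ASE.Stmts8
import Pool.Agent.ASD.Stmts4
import Pool.Agent.Helper20_PP.Rst
import Pool.Agent.Helper85_AT3.LSB

/-!
# Squad ASE, row LMB: the numbers of modular characters of the local blocks
-/

open scoped BigOperators

set_option autoImplicit false

noncomputable section

namespace Pool.Agent.PP.SE.H49

open Pool.Agent.Helper51_AWC Pool.Agent.Helper79_WRA Pool.Agent.PP Pool.Agent.PP.KF
open Pool.Agent.PP.K9 Pool.Agent.PP.K9.H97 Pool.Agent.PP.H75 Pool.Agent.PP.T3 Pool.Agent.PP.SO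
open Pool.Agent.PP.SD

attribute [local instance] Ideal.Quotient.field

/-- transport of the number of modular characters along an isomorphism -/
theorem ln_iso {F X Y : Type} [Field F] [Group X] [Group Y] (e : X ≃* Y) (a : X → F) (b : Y → F)
    (hab : ∀ x, a x = b (e x)) : ln a = ln b := by
  symm
  unfold ln
  have hact : ∀ f : Y → F, ∀ x : X, actF a (fun t : X => f (e t)) x = actF b f (e x) := by
    intro f x
    unfold actF
    rw [← finsum_comp_equiv e.toEquiv]
    apply finsum_congr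
    intro s
    change a s * f (e (s * x)) = b (e s) * f (e s * e x)
    rw [hab, map_mul]
  refine Set.ncard_congr (fun f _ => fun t : X => f (e t)) ?_ ?_ ?_
  · rintro f ⟨h1, h2⟩
    refine ⟨(H20.IBr_equiv e).2 h1, ?_⟩
    funext t
    rw [hact, h2]
  · intro f f' _ _ he
    funext y
    have h1 := congrFun he (e.symm y)
    simp only [MulEquiv.apply_symm_apply] at h1
    exact h1
  · rintro f ⟨h1, h2⟩
    have e1 : (fun t : X => (fun y : Y => f (e.symm y)) (e t)) = f := by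
      funext t
      change f (e.symm (e t)) = f t
      rw [e.symm_apply_apply]
    refine ⟨fun y => f (e.symm y), ⟨?_, ?_⟩, e1⟩
    · rw [← H20.IBr_equiv e, e1]
      exact h1
    · funext y
      have h3 := hact (fun y : Y => f (e.symm y)) (e.symm y)
      rw [e1, h2, e.apply_symm_apply] at h3
      exact h3.symm

/-- a block of the whole group under the block `e` -/
theorem ln_top {F G : Type} [Field F] [Group G] [Finite G] (e b : G → F) (he : IsBlk e)
    (X : Subgroup G) (hX : X = ⊤) (hb : Bx X b) (hu : mulF (fun t : X => e t) (fun t : X => b t) =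
      fun t : X => b t) : ln (fun t : X => b t) = ln e := by
  subst hX
  have he' : IsBlk (fun t : (⊤ : Subgroup G) => e t) := H20.IsBlk_equiv Subgroup.topEquiv he
  have h1 : (fun t : (⊤ : Subgroup G) => b t) = fun t : (⊤ : Subgroup G) => e t := by
    rcases he'.2.2 _ hb.blk.1 with h | h
    · exact hu.symm.trans h
    · exact absurd (hu.symm.trans h) hb.blk.2.1
  rw [h1]
  exact ln_iso Subgroup.topEquiv _ _ (fun _ => rfl)

/-- an idempotent of a subgroup in a group which fixes it -/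
theorem ix_up {F G : Type} [Field F] [Group G] [Finite G] {C X : Subgroup G} {g : G → F}
    (h : Ix C g) (hC : C ≤ X) (hX : X ≤ stabF g) : Ix X g := by
  have h1 : ∀ x, x ∉ X → g x = 0 := fun x hx => h.supp x (fun h' => hx (hC h'))
  refine ⟨h1, ?_, ?_⟩
  · intro x y
    exact hX y.2 x
  · rw [← mulF_res X g h1, h.mul]

section gen

variable {V₀ G : Type} [CommGroup V₀] [Group G]

theorem es_one (E₀ : Subgroup (MulAut V₀)) : Es E₀ (1 : V₀) = E₀ := by
  ext σ
  constructor
  · intro hσ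
    exact hσ.1
  · intro hσ
    exact ⟨hσ, map_one σ⟩

theorem st_zp (E₀ : Subgroup (MulAut V₀)) (c : V₀) : St E₀ (Subgroup.zpowers c) = Es E₀ c := by
  ext σ
  constructor
  · rintro ⟨h1, h2⟩
    exact ⟨h1, h2 c (Subgroup.mem_zpowers c)⟩
  · rintro ⟨h1, h2⟩
    refine ⟨h1, ?_⟩
    intro w hw
    obtain ⟨k, rfl⟩ := Subgroup.mem_zpowers_iff.1 hw
    rw [map_zpow, h2]

theorem mem_CW {F : Type} (B : Bk F V₀ G) (W : Subgroup V₀) (x : G) :
    x ∈ B.C W ↔ ∀ w ∈ W, B.i w * x = x * B.i w := by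
  constructor
  · intro h w hw
    exact Subgroup.mem_centralizer_iff.1 h (B.i w) ⟨w, hw, rfl⟩
  · intro h
    refine Subgroup.mem_centralizer_iff.2 ?_
    rintro _ ⟨w, hw, rfl⟩
    exact h w hw

theorem c_bot {F : Type} (B : Bk F V₀ G) : B.C ⊥ = ⊤ := by
  rw [eq_top_iff]
  intro x _
  rw [mem_CW]
  intro w hw
  rw [Subgroup.mem_bot.1 hw, map_one, one_mul, mul_one]

variable {ℓ : ℕ} {M : Ideal (integralClosure ℤ ℂ)} [M.IsMaximal]

theorem te_top {E₀ : Subgroup (MulAut V₀)} {B : Bk (FF M) V₀ G} (hB : Sb ℓ M E₀ B) :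
    TE B E₀ = Tg B.i.range B.g := by
  ext t
  constructor
  · intro h
    exact h.1
  · intro h
    exact ⟨h, hB.act t h⟩

theorem te_le (B : Bk (FF M) V₀ G) (E' : Subgroup (MulAut V₀)) :
    TE B E' ≤ Tg B.i.range B.g := fun _ h => h.1

theorem te_mono (B : Bk (FF M) V₀ G) {E' E'' : Subgroup (MulAut V₀)} (h : E' ≤ E'') :
    TE B E' ≤ TE B E'' := by
  rintro t ⟨h1, σ, h2, h3⟩
  exact ⟨h1, σ, h h2, h3⟩

/-- the elements of the inertial group in the centraliser of `W` -/
theorem te_st {E₀ : Subgroup (MulAut V₀)} {B : Bk (FF M) V₀ G} (hB : Sb ℓ M E₀ B)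
    (W : Subgroup V₀) (t : G) : t ∈ TE B (St E₀ W) ↔ t ∈ Tg B.i.range B.g ∧ t ∈ B.C W := by
  constructor
  · rintro ⟨h1, σ, h2, h3⟩
    refine ⟨h1, ?_⟩
    rw [mem_CW]
    intro w hw
    have h4 := h3 w
    rw [h2.2 w hw] at h4
    calc B.i w * t = t * B.i w * t⁻¹ * t := by rw [h4]
      _ = t * B.i w := by group
  · rintro ⟨h1, h2⟩
    obtain ⟨σ, h3, h4⟩ := hB.act t h1
    refine ⟨h1, σ, ⟨h3, fun w hw => ?_⟩, h4⟩
    apply hB.inj
    rw [← h4, ← (mem_CW B W t).1 h2 w hw, mul_inv_cancel_right]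

theorem cent_le_tg [Finite G] {E₀ : Subgroup (MulAut V₀)} {B : Bk (FF M) V₀ G}
    (hB : Sb ℓ M E₀ B) : Subgroup.centralizer (B.i.range : Set G) ≤ Tg B.i.range B.g := by
  intro t ht
  refine ⟨Subgroup.centralizer_le_normalizer _ ht, ?_⟩
  have h1 := hB.ld.gam.ix.inv ht
  rw [cj_eq_iff] at h1
  exact h1

/-- `C(V)` is in every `TE B E'` -/
theorem cent_le_te [Finite G] {E₀ : Subgroup (MulAut V₀)} {B : Bk (FF M) V₀ G}
    (hB : Sb ℓ M E₀ B) (E' : Subgroup (MulAut V₀)) :
    Subgroup.centralizer (B.i.range : Set G) ≤ TE B E' := by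
  intro t ht
  refine ⟨cent_le_tg hB ht, 1, E'.one_mem, fun v => ?_⟩
  rw [MulAut.one_apply, ← Subgroup.mem_centralizer_iff.1 ht (B.i v) ⟨v, rfl⟩,
    mul_inv_cancel_right]

theorem sum_ne_one [Finite V₀] (f : V₀ → ℕ) :
    ∑ᶠ v, f v = f 1 + ∑ᶠ v ∈ {v : V₀ | v ≠ 1}, f v := by
  rw [← finsum_mem_insert f (s := {v : V₀ | v ≠ 1}) (fun h => h rfl) (Set.toFinite _),
    ← finsum_mem_univ]
  congr 1
  have h : insert (1 : V₀) {v : V₀ | v ≠ 1} = Set.univ := by
    ext v
    simp only [Set.mem_insert_iff, Set.mem_ofPred_eq, Set.mem_univ, iff_true]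
    exact em (v = 1)
  rw [h]

end gen

/-- LMB -/
theorem lmb (kld : KldStmt) (lnh : LnhStmt) (lnn : LnnStmt) (rda : RdaStmt)
    (k9 : K9.LbdStmt) : LmbStmt := by
  classical
  intro ℓ hℓ M _ hM h2 V₀ G _ _ _ _ E₀ hFq B hB
  have hT := te_top hB
  have hLam : Lam B E₀ = lT B := by
    unfold Lam lT
    rw [hT]
  -- the local blocks
  have key : ∀ W, W ≠ ⊥ → ln (fun t : B.C W => B.b W t) = Lam B (St E₀ W) := by
    intro W hW
    obtain ⟨hFq', B', hB', he, hg, hi, -⟩ := rda ℓ M hM h2 V₀ G E₀ hFq B hB W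
    have hN : (W.map B'.i).Normal := by
      constructor
      rintro _ ⟨w, hw, rfl⟩ x
      refine ⟨w, hw, ?_⟩
      apply Subtype.ext
      have h1 := (mem_CW B W x).1 x.2 w hw
      rw [Subgroup.coe_mul, Subgroup.coe_mul, Subgroup.coe_inv, hi, ← h1, mul_inv_cancel_right]
    have h1 := lnh ℓ M hM V₀ (B.C W) (St E₀ W) hFq' B' hB' W hW hN
    have h3 : B'.e = fun t : B.C W => B.b W t := funext he
    have hg' : B'.g = fun t : B.C W => B.g t := funext hg
    have hVX : B.i.range ≤ B.C W := by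
      rintro _ ⟨v, rfl⟩
      rw [mem_CW]
      intro w _
      rw [← map_mul, ← map_mul, mul_comm]
    have hCX : Subgroup.centralizer (B.i.range : Set G) ≤ B.C W := by
      refine Subgroup.centralizer_le ?_
      rintro _ ⟨w, _, rfl⟩
      exact ⟨w, rfl⟩
    have hr : B'.i.range = B.i.range.subgroupOf (B.C W) := by
      ext t
      rw [Subgroup.mem_subgroupOf]
      constructor
      · rintro ⟨v, rfl⟩
        exact ⟨v, (hi v).symm⟩
      · rintro ⟨v, hv⟩
        exact ⟨v, Subtype.ext ((hi v).trans hv)⟩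
    have hmem : ∀ t : B.C W, t ∈ Tg B'.i.range B'.g ↔ (t : G) ∈ TE B (St E₀ W) := by
      intro t
      rw [hr, hg', T3.H85.Tg_eq hVX hCX hB.ld.gam.supp, Subgroup.mem_subgroupOf, te_st hB W]
      exact Iff.rfl
    let φ : Tg B'.i.range B'.g ≃* TE B (St E₀ W) :=
      { toFun := fun t => ⟨((t : B.C W) : G), (hmem t).1 t.2⟩
        invFun := fun t => ⟨⟨(t : G), ((te_st hB W t).1 t.2).2⟩, (hmem _).2 t.2⟩
        left_inv := fun _ => rfl
        right_inv := fun _ => rfl
        map_mul' := fun _ _ => rfl }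
    rw [← h3, h1]
    unfold lT Lam
    exact ln_iso φ _ _ (fun x => hg x)
  refine ⟨key, ?_, ?_, ?_, ?_⟩
  · intro W hW hN
    rw [hLam]
    exact lnh ℓ M hM V₀ G E₀ hFq B hB W hW hN
  · rw [hLam]
    exact lnn ℓ M hM V₀ G E₀ B hB
  · have h1 := (kld ℓ M hM h2 V₀ G E₀ hFq B hB).1
    rw [h1, sum_ne_one, es_one, Subgroup.zpowers_one_eq_bot]
    congr 1
    · congr 1
      exact ln_top B.e (B.b ⊥) hB.ld.blk (B.C ⊥) (c_bot B) (hB.lb ⊥).blk (hB.lb ⊥).und
    · refine finsum_mem_congr rfl fun v hv => ?_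
      rw [key _ (fun h => hv (Subgroup.zpowers_eq_bot.1 h)), st_zp]
  · intro E' _
    have hix : Ix (TE B E') B.g := ix_up hB.ld.gam.ix (cent_le_te hB E')
      (fun t ht => (te_le B E' ht).2)
    have hne : (fun t : TE B E' => B.g t) ≠ 0 := by
      intro h
      apply hB.ld.gam.blk.2.1
      funext t
      exact congrFun h ⟨t, cent_le_te hB E' t.2⟩
    exact (k9 ℓ M hM (TE B E') (fun t => B.g t) hix.idem hne).1

end Pool.Agent.PP.SE.H49
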