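import Pool.Agent.Helper49_ASE.VXT
import Pool.Agent.AT6.Stmts1

/-!
# Squad ASE, row VXG: the values at the elements whose `ℓ`-part is not in `i(W)`
-/

open scoped BigOperators

set_option autoImplicit false

noncomputable section

namespace Pool.Agent.PP.SE.H49

open Pool.Agent.Helper51_AWC Pool.Agent.Helper79_WRA Pool.Agent.PP Pool.Agent.PP.KF
open Pool.Agent.PP.K9 Pool.Agent.PP.K9.H97 Pool.Agent.PP.H75 Pool.Agent.PP.T3 Pool.Agent.PP.SO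
open Pool.Agent.PP.SD
open Pool.Agent.PP.SD.H49 (cnd_bh_mem cnd_bh_off cnd_bh_sing cnd_bh_cl cnd_C_anti cnd_cu_pow)

attribute [local instance] Ideal.Quotient.field

theorem reg_conj {ℓ : ℕ} {H : Type} [Group H] (u y : H) :
    Reg ℓ (u * y * u⁻¹) ↔ Reg ℓ y := by
  unfold Reg
  have h := orderOf_injective (MulAut.conj u).toMonoidHom (MulAut.conj u).injective y
  have e : (MulAut.conj u).toMonoidHom y = u * y * u⁻¹ := rfl
  rw [e] at h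
  rw [h]

theorem reg_coe {ℓ : ℕ} {H : Type} [Group H] {X : Subgroup H} (y : X) :
    Reg ℓ y ↔ Reg ℓ (y : H) := by
  unfold Reg
  rw [Subgroup.orderOf_coe]

section a

variable {ℓ : ℕ} [hℓ : Fact ℓ.Prime] {M : Ideal (integralClosure ℤ ℂ)} [M.IsMaximal]
  {V₀ G : Type} [CommGroup V₀] [Finite V₀] [Group G] [Finite G] {E₀ : Subgroup (MulAut V₀)}

omit hℓ [Finite V₀] in
/-- the value of an irreducible character at `z ê` -/
theorem fv_eh' {H : Type} [Group H] [Finite H] (e : H → FF M) {χ : H → ℂ}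
    (hχ : χ ∈ IrrE M e) (z : H) : T8.fv (eh M e) z χ = χ z := by
  classical
  have := Fintype.ofFinite H
  have h1 : T8.fv (eh M e) z χ = H50.om (eh M e) χ * χ z := by
    unfold T8.fv
    rw [finsum_eq_sum_of_fintype, ← H50.eigen (KF.H25.eh_cl e) hχ.1 z]
    refine Finset.sum_congr rfl fun t _ => ?_
    congr 1
    have h2 := irr_conj hχ.1 (g := t * z) (h := z)
    rw [← h2]
    congr 1
    group
  rw [h1, (KF.H25.eh_om e hχ.1).1 hχ, one_mul]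

omit hℓ [Finite V₀] in
theorem bh_conj (B : Bk (FF M) V₀ G) (z : B.C ⊤) (y : G) :
    bh B ⊤ ((z : G)⁻¹ * y * z) = bh B ⊤ y := by
  by_cases hy : y ∈ B.C ⊤
  · have h := cnd_bh_cl B ⊤ ⟨y, hy⟩ z⁻¹
    have e : (((z⁻¹ * ⟨y, hy⟩ * z⁻¹⁻¹ : B.C ⊤)) : G) = (z : G)⁻¹ * y * z := by
      rw [inv_inv]
      rfl
    rw [e] at h
    exact h
  · rw [cnd_bh_off B ⊤ hy, cnd_bh_off]
    intro h
    apply hy
    have h3 := (B.C ⊤).mul_mem ((B.C ⊤).mul_mem z.2 h) ((B.C ⊤).inv_mem z.2)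
    have e : (z : G) * ((z : G)⁻¹ * y * z) * (z : G)⁻¹ = y := by group
    rwa [e] at h3

omit hℓ [Finite V₀] in
theorem fc_top (B : Bk (FF M) V₀ G) (x : V₀) (g : G) :
    fc B ⊤ x g = bh B ⊤ ((B.i x)⁻¹ * g) := by
  classical
  have := Fintype.ofFinite (B.C ⊤)
  unfold fc
  rw [top_sup_eq]
  have h1 : ∀ z : B.C ⊤, bh B ⊤ ((B.i x)⁻¹ * ((z : G)⁻¹ * g * z)) =
      bh B ⊤ ((B.i x)⁻¹ * g) := by
    intro z
    rw [← bh_conj B z ((B.i x)⁻¹ * g)]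
    congr 1
    have h3 : B.i x * (z : G) = z * B.i x :=
      Subgroup.mem_centralizer_iff.1 z.2 (B.i x) ⟨x, Subgroup.mem_top x, rfl⟩
    have h4 : (B.i x)⁻¹ * (z : G)⁻¹ = (z : G)⁻¹ * (B.i x)⁻¹ := by
      rw [← mul_inv_rev, ← mul_inv_rev, h3]
    calc (B.i x)⁻¹ * ((z : G)⁻¹ * g * z) = (B.i x)⁻¹ * (z : G)⁻¹ * g * z := by group
      _ = (z : G)⁻¹ * ((B.i x)⁻¹ * g) * z := by rw [h4]; group
  rw [finsum_congr h1, finsum_eq_sum_of_fintype, Finset.sum_const, Finset.card_univ,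
    nsmul_eq_mul, Nat.card_eq_fintype_card, ← mul_assoc, inv_mul_cancel₀, one_mul]
  exact_mod_cast Fintype.card_ne_zero

omit [Finite V₀] in
/-- the values of the characters of `g` at the regular elements -/
theorem kap_reg (hM : (ℓ : integralClosure ℤ ℂ) ∈ M) (h2 : ℓ ≠ 2) [Finite V₀] (nsd : NsdStmt)
    (hFq : Fq ℓ V₀ E₀) {B : Bk (FF M) V₀ G} (hB : Sd ℓ M E₀ B) {κ : B.C ⊤ → ℂ}
    (hκ : κ ∈ IrrE M (fun t : B.C ⊤ => B.b ⊤ t)) {s : B.C ⊤} (hs : Reg ℓ (s : G)) :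
    κ s = (Nat.card (B.C ⊤) : ℂ) / (ℓ ^ 2 * B.D ⊤) * bh B ⊤ (s : G)⁻¹ := by
  classical
  obtain ⟨n1, -, -, n4, -⟩ := nsd ℓ M hM h2 V₀ G E₀ hFq B hB ⊤ (rw_top hFq)
  have h1 : (fun t : B.C ⊤ => H75.ext0 (B.C ⊤) κ t) = κ := by
    funext t
    exact H75.ext0_apply _ _ _
  have hχ : H75.ext0 (B.C ⊤) κ ∈ Ch B ⊤ := ⟨H75.ext0_supp _ _, by rw [h1]; exact hκ⟩
  have h3 := n4 _ hχ s s.2
  rw [H75.ext0_apply] at h3
  rw [h3]
  congr 1
  rw [finsum_eq_single _ (1 : V₀)]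
  · rw [ux_top, (n1.1 hχ).1, fc_top, map_one, map_one, inv_one, one_mul]
    simp
  · intro x hx
    rw [fc_top, cnd_bh_sing hM hB.toSb ⊤, mul_zero]
    have hix : (B.i x)⁻¹ ^ ℓ = 1 := by rw [inv_pow, ← map_pow, hFq.ex, map_one, inv_one]
    have hix1 : (B.i x)⁻¹ ≠ 1 := by
      intro h
      apply hx
      rw [inv_eq_one] at h
      exact hB.inj (by rw [h, map_one])
    have hc : B.i x * (s : G) = s * B.i x :=
      Subgroup.mem_centralizer_iff.1 s.2 (B.i x) ⟨x, Subgroup.mem_top x, rfl⟩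
    have hcomm : Commute (B.i x)⁻¹ (s : G)⁻¹ := Commute.inv_inv hc
    refine not_reg_mul hix hix1 hcomm ?_
    unfold Reg
    rw [orderOf_inv]
    exact hs

omit [Finite V₀] in
/-- the functions of the block `g` at the elements `i(x) s`, `s` regular -/
theorem span_val (hM : (ℓ : integralClosure ℤ ℂ) ∈ M) (h2 : ℓ ≠ 2) [Finite V₀]
    (nsd : NsdStmt) (hFq : Fq ℓ V₀ E₀) {B : Bk (FF M) V₀ G} (hB : Sd ℓ M E₀ B)
    {h : B.C ⊤ → ℂ} (hh : h ∈ Submodule.span ℂ (IrrE M (fun t : B.C ⊤ => B.b ⊤ t)))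
    {z s : B.C ⊤} (hz : ∀ c, z * c = c * z) (hs : Reg ℓ (s : G)) :
    h (z * s) = h z * ((Nat.card (B.C ⊤) : ℂ) / (ℓ ^ 2 * B.D ⊤ ^ 2) * bh B ⊤ (s : G)⁻¹) := by
  classical
  have hdg := hB.dg ⊤ (rw_top hFq)
  have hD0 : (B.D ⊤ : ℂ) ≠ 0 := Nat.cast_ne_zero.2 hdg.1.ne'
  have hℓ0 : (ℓ : ℂ) ≠ 0 := Nat.cast_ne_zero.2 hℓ.out.ne_zero
  induction hh using Submodule.span_induction with
  | mem κ hκ =>
    rw [T3.H98.cent_mul hκ.1 hz, kap_reg hM h2 nsd hFq hB hκ hs, hdg.2 κ hκ]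
    field_simp
  | zero => simp
  | add a b _ _ ha hb =>
    rw [Pi.add_apply, Pi.add_apply, ha, hb]
    ring
  | smul c a _ ha =>
    rw [Pi.smul_apply, Pi.smul_apply, ha, smul_eq_mul, smul_eq_mul]
    ring

/-- the values of the section components -/
theorem gv_sec (hM : (ℓ : integralClosure ℤ ℂ) ∈ M) (h2 : ℓ ≠ 2) (nsd : NsdStmt)
    (hFq : Fq ℓ V₀ E₀) {B : Bk (FF M) V₀ G} (hB : Sd ℓ M E₀ B) {W : Subgroup V₀}
    {χ : G → ℂ} (hχ : (fun t : B.C W => χ t) ∈ Irr (B.C W)) {x : V₀} {s : G}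
    (hs : s ∈ B.C ⊤) (hsr : Reg ℓ s) :
    ∑ᶠ r : G, bh B ⊤ r * χ (B.i x * s * r) =
      vx B χ x * ((Nat.card (B.C ⊤) : ℂ) / (ℓ ^ 2 * B.D ⊤) * bh B ⊤ s⁻¹) := by
  classical
  have := Fintype.ofFinite (B.C ⊤)
  have hTW : B.C ⊤ ≤ B.C W := cnd_C_anti B le_top
  have hdg := hB.dg ⊤ (rw_top hFq)
  have hD0 : (B.D ⊤ : ℂ) ≠ 0 := Nat.cast_ne_zero.2 hdg.1.ne'
  have hℓ0 : (ℓ : ℂ) ≠ 0 := Nat.cast_ne_zero.2 hℓ.out.ne_zero
  have hsp : (fun c : B.C ⊤ => χ c) ∈ Submodule.span ℂ (Irr (B.C ⊤)) := by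
    apply T3.H98.span_irr
    intro a b
    exact irr_conj hχ (⟨a, hTW a.2⟩ : B.C W) (⟨b, hTW b.2⟩ : B.C W)
  have hm := T3.H98.mem_span_blk (M := M) (fun t : B.C ⊤ => B.b ⊤ t) (z := 1)
    (fun c => by rw [one_mul, mul_one]) hsp
  obtain ⟨h, hh⟩ : ∃ h : B.C ⊤ → ℂ, h = fun c => ∑ t : B.C ⊤,
    eh M (fun t : B.C ⊤ => B.b ⊤ t) t * (fun c : B.C ⊤ => χ c) (1 * c * t) := ⟨_, rfl⟩
  rw [← hh] at hm
  have hval : ∀ w : B.C ⊤, ∑ᶠ r : G, bh B ⊤ r * χ ((w : G) * r) = h w := by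
    intro w
    rw [H75.sum_sub (B.C ⊤) (fun r : G => bh B ⊤ r * χ ((w : G) * r)) (fun r hr => by
      rw [cnd_bh_off B ⊤ hr, zero_mul]), finsum_eq_sum_of_fintype, hh]
    refine Finset.sum_congr rfl fun t _ => ?_
    rw [cnd_bh_mem, one_mul]
    rfl
  have hix : B.i x ∈ B.C ⊤ := by
    refine Subgroup.mem_centralizer_iff.2 ?_
    rintro _ ⟨w, _, rfl⟩
    rw [← map_mul, ← map_mul, mul_comm]
  have hz : ∀ c : B.C ⊤, (⟨B.i x, hix⟩ : B.C ⊤) * c = c * ⟨B.i x, hix⟩ := fun c =>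
    Subtype.ext (Subgroup.mem_centralizer_iff.1 c.2 (B.i x) ⟨x, Subgroup.mem_top x, rfl⟩)
  have h3 := hval (⟨B.i x, hix⟩ * ⟨s, hs⟩)
  have h4 := hval ⟨B.i x, hix⟩
  rw [span_val hM h2 nsd hFq hB hm hz (s := ⟨s, hs⟩) hsr, ← h4] at h3
  have h5 : ∑ᶠ r : G, bh B ⊤ r * χ (B.i x * r) = B.D ⊤ * vx B χ x := by
    unfold vx
    rw [mul_div_cancel₀ _ hD0]
  have e1 : (((⟨B.i x, hix⟩ * ⟨s, hs⟩ : B.C ⊤)) : G) = B.i x * s := rfl
  rw [e1] at h3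
  rw [h3, h5]
  field_simp

end a

/-- VXG -/
theorem vxg (sec : T6.SecStmt) (rda : SD.RdaStmt) (hlnk : SO.HLnkStmt) (nsd : SD.NsdStmt) :
    VxgStmt := by
  classical
  intro ℓ hℓ M _ hM h2 V₀ G _ _ _ _ E₀ hFq B hB W hW g hg hsing
  have hWb : W ≠ ⊥ := by
    intro h
    have h1 := hW.1
    rw [h, Subgroup.card_bot] at h1
    exact hℓ.out.one_lt.ne h1
  obtain ⟨B', hB', he, -, hi, hloc⟩ := loc_dat hM h2 rda hlnk hFq hB.toSb hWb
  have hLc : ∀ x : V₀, Lc B'.e B'.i.range B'.g (B'.i x) (B'.b (Subgroup.zpowers x)) :=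
    fun x => (hlnk ℓ M hM V₀ (St E₀ W) (B.C W) B' hB' x).2.1
  obtain ⟨b, hb⟩ : ∃ b : B.C W → B.C W → FF M, ∀ x, b (B'.i x) =
      B'.b (Subgroup.zpowers x) := by
    refine ⟨fun v => if h : ∃ x, B'.i x = v then B'.b (Subgroup.zpowers h.choose) else 0, ?_⟩
    intro x
    have h : ∃ y, B'.i y = B'.i x := ⟨x, rfl⟩
    beta_reduce
    rw [dif_pos h, hB'.inj h.choose_spec]
  have hbL : ∀ v ∈ B'.i.range, Lc B'.e B'.i.range B'.g v (b v) := by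
    rintro _ ⟨x, rfl⟩
    rw [hb]
    exact hLc x
  obtain ⟨g', hg'⟩ : ∃ g' : B.C W, g' = ⟨g, hg⟩ := ⟨_, rfl⟩
  have hgg : (g' : G) = g := by rw [hg']
  obtain ⟨K, hK⟩ : ∃ K : ℂ, K = (Nat.card (B.C ⊤) : ℂ) / (ℓ ^ 2 * B.D ⊤) := ⟨_, rfl⟩
  refine ⟨fun x => T6.wt B'.i.range B'.g (B'.i x) * ((Nat.card (Cu (B'.i x)) : ℂ)⁻¹ *
    ∑ᶠ (u : B.C W) (_ : T5.Lp ℓ (u⁻¹ * g' * u) (B'.i x)),
      K * bh B ⊤ (((B'.i x)⁻¹ * (u⁻¹ * g' * u) : B.C W) : G)⁻¹), ?_⟩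
  intro χ hχ
  have hirr := hχ.2.1
  have h1 := sec ℓ M hM (B.C W) B'.e B'.i.range B'.g hB'.ld b hbL (fun t : B.C W => χ t)
    (fun x y => irr_conj hirr x y) g'
  have hχe : (fun t : B.C W => χ t) ∈ IrrE M B'.e := by
    rw [he]
    exact hχ.2
  rw [fv_eh' B'.e hχe g', hgg] at h1
  rw [h1]
  have h3 : ∑ᶠ (v : B.C W) (_ : v ∈ B'.i.range), T6.wt B'.i.range B'.g v *
      T6.sv M ℓ v (b v) (fun t : B.C W => χ t) g' =
      ∑ᶠ x : V₀, T6.wt B'.i.range B'.g (B'.i x) *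
        T6.sv M ℓ (B'.i x) (b (B'.i x)) (fun t : B.C W => χ t) g' := by
    have h4 : ∀ F : B.C W → ℂ, ∑ᶠ (v : B.C W) (_ : v ∈ B'.i.range), F v =
        ∑ᶠ v ∈ Set.range B'.i, F v := by
      intro F
      rfl
    rw [h4, finsum_mem_range hB'.inj]
  rw [h3, finsum_mem_def]
  refine finsum_congr fun x => ?_
  by_cases hx : x ∈ W
  · rw [Set.indicator_of_notMem (by exact fun h => h hx)]
    have h4 : T6.sv M ℓ (B'.i x) (b (B'.i x)) (fun t : B.C W => χ t) g' = 0 := by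
      unfold T6.sv
      have h5 : ∀ u : B.C W, ¬ T5.Lp ℓ (u⁻¹ * g' * u) (B'.i x) := by
        intro u hu
        apply hsing x⁻¹ (W.inv_mem hx)
        have h6 := hu.reg
        have h7 : B'.i x * u = u * B'.i x := by
          apply Subtype.ext
          have h8 := Subgroup.mem_centralizer_iff.1 u.2 (B.i x) ⟨x, hx, rfl⟩
          rw [Subgroup.coe_mul, Subgroup.coe_mul, hi]
          exact h8
        have h9 : (B'.i x)⁻¹ * (u⁻¹ * g' * u) = u⁻¹ * ((B'.i x)⁻¹ * g') * u⁻¹⁻¹ := by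
          have h10 : (B'.i x)⁻¹ * u⁻¹ = u⁻¹ * (B'.i x)⁻¹ := by
            rw [← mul_inv_rev, ← mul_inv_rev, h7]
          rw [inv_inv]
          calc (B'.i x)⁻¹ * (u⁻¹ * g' * u) = (B'.i x)⁻¹ * u⁻¹ * g' * u := by group
            _ = u⁻¹ * ((B'.i x)⁻¹ * g') * u := by rw [h10]; group
        rw [h9, reg_conj, reg_coe] at h6
        have h11 : (((B'.i x)⁻¹ * g' : B.C W) : G) = B.i x⁻¹ * g := by
          rw [Subgroup.coe_mul, Subgroup.coe_inv, hi, hgg, map_inv]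
        rw [h11] at h6
        exact h6
      have h12 : ∑ᶠ (u : B.C W) (_ : T5.Lp ℓ (u⁻¹ * g' * u) (B'.i x)),
          gv M (Cu (B'.i x)) (u⁻¹ * g' * u) (b (B'.i x)) (fun t => χ t) = 0 := by
        rw [← finsum_zero (α := B.C W)]
        refine finsum_congr fun u => ?_
        rw [finsum_eq_if, if_neg (h5 u)]
      rw [h12, mul_zero]
    rw [h4, mul_zero]
  · rw [Set.indicator_of_mem (by exact hx)]
    obtain ⟨l1, l2, l3⟩ := hloc x hx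
    have h4 : T6.sv M ℓ (B'.i x) (b (B'.i x)) (fun t : B.C W => χ t) g' =
        vx B χ x * ((Nat.card (Cu (B'.i x)) : ℂ)⁻¹ *
          ∑ᶠ (u : B.C W) (_ : T5.Lp ℓ (u⁻¹ * g' * u) (B'.i x)),
            K * bh B ⊤ (((B'.i x)⁻¹ * (u⁻¹ * g' * u) : B.C W) : G)⁻¹) := by
      unfold T6.sv
      rw [mul_left_comm]
      congr 1
      rw [mul_finsum]
      refine finsum_congr fun u => ?_
      rw [finsum_eq_if, finsum_eq_if]
      by_cases hu : T5.Lp ℓ (u⁻¹ * g' * u) (B'.i x)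
      swap
      · rw [if_neg hu, if_neg hu, mul_zero]
      rw [if_pos hu, if_pos hu]
      obtain ⟨s, hs⟩ : ∃ s, s = (B'.i x)⁻¹ * (u⁻¹ * g' * u) := ⟨_, rfl⟩
      have hsu : u⁻¹ * g' * u = B'.i x * s := by rw [hs, mul_inv_cancel_left]
      have hreg := hu.reg
      have hcom := hu.com
      rw [← hs] at hreg ⊢
      rw [hsu] at hcom ⊢
      have hsC : s ∈ Cu (B'.i x) := by
        rw [Subgroup.mem_centralizer_singleton_iff]
        have h5 : B'.i x * (B'.i x * s) = B'.i x * (s * B'.i x) := by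
          rw [← mul_assoc (B'.i x) s]
          exact hcom
        exact (mul_left_cancel h5).symm
      rw [reg_coe] at hreg
      rw [hb, vt_gv B W l1 l2 l3.blk.blk.1.1, Subgroup.coe_mul, hi,
        gv_sec hM h2 nsd hFq hB hirr ((l1 s).1 hsC) hreg, hK]
    rw [h4]
    ring

end Pool.Agent.PP.SE.H49
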