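import Pool.Agent.Helper49_ASE.VXT
import Pool.Agent.Helper94_PP.LemQ

/-!
# Squad ASE, row VXO: orthogonality
-/

open scoped BigOperators

set_option autoImplicit false

noncomputable section

namespace Pool.Agent.PP.SE.H49

open Pool.Agent.Helper51_AWC Pool.Agent.Helper79_WRA Pool.Agent.PP Pool.Agent.PP.KF
open Pool.Agent.PP.K9 Pool.Agent.PP.K9.H97 Pool.Agent.PP.H75 Pool.Agent.PP.T3 Pool.Agent.PP.SO
open Pool.Agent.PP.SD
open Pool.Agent.PP.SD.H49 (cnd_bh_mem cnd_bh_off cnd_bh_sing cnd_C_anti cnd_cu_pow)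

attribute [local instance] Ideal.Quotient.field

section a

variable {ℓ : ℕ} [hℓ : Fact ℓ.Prime] {M : Ideal (integralClosure ℤ ℂ)} [M.IsMaximal]
  {V₀ G : Type} [CommGroup V₀] [Finite V₀] [Group G] [Finite G] {E₀ : Subgroup (MulAut V₀)}

/-- part (1) -/
theorem vxo1 (hM : (ℓ : integralClosure ℤ ℂ) ∈ M) (h2 : ℓ ≠ 2) (rda : RdaStmt)
    (hlnk : HLnkStmt) (smg : T3.SmgStmt) (co1 : T3.Co1Stmt) (co2 : T3.Co2Stmt) (fus : T3.FusStmt)
    (nsd : NsdStmt) (hFq : Fq ℓ V₀ E₀) {B : Bk (FF M) V₀ G} (hB : Sd ℓ M E₀ B)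
    {W : Subgroup V₀} (hW : W ≠ ⊥)
    (hinv : ∀ χ ∈ Ch B W, ∀ τ ∈ St E₀ W, ∀ x, vx B χ (τ x) = vx B χ x)
    {x y : V₀} (hx : x ∉ W) (hy : y ∉ W) :
    ∑ᶠ χ ∈ Ch B W, vx B χ x * starRingEnd ℂ (vx B χ y) =
      (ℓ : ℂ) ^ 2 * {τ : MulAut V₀ | τ ∈ St E₀ W ∧ τ x = y}.ncard := by
  classical
  obtain ⟨B', hB', he, hg, hi, hloc⟩ := loc_dat hM h2 rda hlnk hFq hB.toSb hW
  have hD0 : (B.D ⊤ : ℂ) ≠ 0 := Nat.cast_ne_zero.2 (hB.dg ⊤ (rw_top hFq)).1.ne'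
  have hvx : ∀ z, z ∉ W → ∀ χ : G → ℂ, gv M (Cu (B'.i z)) (B'.i z)
      (B'.b (Subgroup.zpowers z)) (fun t => χ t) = B.D ⊤ * vx B χ z := by
    intro z hz χ
    obtain ⟨h1, h3, h4⟩ := hloc z hz
    rw [vt_gv B W h1 h3 h4.blk.blk.1.1, hi]
    unfold vx
    rw [mul_div_cancel₀ _ hD0]
  have hsum : ∑ᶠ χ ∈ Ch B W, vx B χ x * starRingEnd ℂ (vx B χ y) =
      ∑ᶠ ψ ∈ IrrE M B'.e, ((B.D ⊤ : ℂ) ^ 2)⁻¹ * (gv M (Cu (B'.i x)) (B'.i x)
        (B'.b (Subgroup.zpowers x)) ψ * starRingEnd ℂ (gv M (Cu (B'.i y)) (B'.i y)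
        (B'.b (Subgroup.zpowers y)) ψ)) := by
    rw [he, ← sum_ch B W]
    refine finsum_mem_congr rfl fun χ _ => ?_
    beta_reduce
    rw [hvx x hx, hvx y hy, map_mul, Complex.conj_natCast]
    field_simp
  have hirr : ∑ᶠ ψ ∈ IrrE M B'.e, (gv M (Cu (B'.i x)) (B'.i x)
        (B'.b (Subgroup.zpowers x)) ψ * starRingEnd ℂ (gv M (Cu (B'.i y)) (B'.i y)
        (B'.b (Subgroup.zpowers y)) ψ)) = ∑ᶠ ψ ∈ Irr (B.C W), (gv M (Cu (B'.i x)) (B'.i x)
        (B'.b (Subgroup.zpowers x)) ψ * starRingEnd ℂ (gv M (Cu (B'.i y)) (B'.i y)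
        (B'.b (Subgroup.zpowers y)) ψ)) := by
    apply finsum_mem_inter_support_eq
    ext ψ
    constructor
    · rintro ⟨h1, h3⟩
      exact ⟨h1.1, h3⟩
    · rintro ⟨h1, h3⟩
      refine ⟨?_, h3⟩
      by_contra hn
      apply h3
      have hix1 : B'.i x ≠ 1 := by
        intro h
        apply hx
        have h5 : x = 1 := hB'.inj (by rw [h, map_one])
        rw [h5]
        exact W.one_mem
      have hk := (smg ℓ M hM (B.C W) (B'.i x) 1 hix1 (ix_El hFq B'.i x) (Subgroup.one_mem _)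
        K9.H25.reg_one (fun t : Cu (B'.i x) => B'.b (Subgroup.zpowers x) t)
        (hloc x hx).2.2.blk.ix.idem B'.e hB'.ld.blk.1).1 (hloc x hx).2.2.und ψ h1 hn
      rw [mul_one] at hk
      change gv M (Cu (B'.i x)) (B'.i x) (B'.b (Subgroup.zpowers x)) ψ * _ = 0
      have hk' : gv M (Cu (B'.i x)) (B'.i x) (B'.b (Subgroup.zpowers x)) ψ = 0 := hk
      rw [hk', zero_mul]
  by_cases hτ : ∃ τ ∈ St E₀ W, τ x = y
  · obtain ⟨τ₀, hτ₀, rfl⟩ := hτ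
    have h1 : {τ : MulAut V₀ | τ ∈ St E₀ W ∧ τ x = τ₀ x} = {τ₀} := by
      ext τ
      constructor
      · rintro ⟨h3, h4⟩
        apply MulEquiv.ext
        intro v
        obtain ⟨k, w, hw, rfl⟩ := SO.H33.decomp hFq.ex hFq.cd hW hx v
        rw [map_mul, map_pow, map_mul, map_pow, h4, h3.2 w hw, hτ₀.2 w hw]
      · rintro rfl
        exact ⟨hτ₀, rfl⟩
    rw [h1, Set.ncard_singleton, Nat.cast_one, mul_one]
    have h3 : ∑ᶠ χ ∈ Ch B W, vx B χ x * starRingEnd ℂ (vx B χ (τ₀ x)) =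
        ∑ᶠ χ ∈ Ch B W, vx B χ x * starRingEnd ℂ (vx B χ x) := by
      refine finsum_mem_congr rfl fun χ hχ => ?_
      rw [hinv χ hχ τ₀ hτ₀]
    clear hsum hirr
    have hsum : ∑ᶠ χ ∈ Ch B W, vx B χ x * starRingEnd ℂ (vx B χ x) =
        ∑ᶠ ψ ∈ IrrE M B'.e, ((B.D ⊤ : ℂ) ^ 2)⁻¹ * (gv M (Cu (B'.i x)) (B'.i x)
          (B'.b (Subgroup.zpowers x)) ψ * starRingEnd ℂ (gv M (Cu (B'.i x)) (B'.i x)
          (B'.b (Subgroup.zpowers x)) ψ)) := by
      rw [he, ← sum_ch B W]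
      refine finsum_mem_congr rfl fun χ _ => ?_
      beta_reduce
      rw [hvx x hx, map_mul, Complex.conj_natCast]
      field_simp
    have hirr : ∑ᶠ ψ ∈ IrrE M B'.e, (gv M (Cu (B'.i x)) (B'.i x)
          (B'.b (Subgroup.zpowers x)) ψ * starRingEnd ℂ (gv M (Cu (B'.i x)) (B'.i x)
          (B'.b (Subgroup.zpowers x)) ψ)) = ∑ᶠ ψ ∈ Irr (B.C W), (gv M (Cu (B'.i x)) (B'.i x)
          (B'.b (Subgroup.zpowers x)) ψ * starRingEnd ℂ (gv M (Cu (B'.i x)) (B'.i x)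
          (B'.b (Subgroup.zpowers x)) ψ)) := by
      apply finsum_mem_inter_support_eq
      ext ψ
      constructor
      · rintro ⟨h1, h3⟩
        exact ⟨h1.1, h3⟩
      · rintro ⟨h1, h3⟩
        refine ⟨?_, h3⟩
        by_contra hn
        apply h3
        have hix1 : B'.i x ≠ 1 := by
          intro h
          apply hx
          have h5 : x = 1 := hB'.inj (by rw [h, map_one])
          rw [h5]
          exact W.one_mem
        have hk := (smg ℓ M hM (B.C W) (B'.i x) 1 hix1 (ix_El hFq B'.i x) (Subgroup.one_mem _)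
          K9.H25.reg_one (fun t : Cu (B'.i x) => B'.b (Subgroup.zpowers x) t)
          (hloc x hx).2.2.blk.ix.idem B'.e hB'.ld.blk.1).1 (hloc x hx).2.2.und ψ h1 hn
        rw [mul_one] at hk
        change gv M (Cu (B'.i x)) (B'.i x) (B'.b (Subgroup.zpowers x)) ψ * _ = 0
        have hk' : gv M (Cu (B'.i x)) (B'.i x) (B'.b (Subgroup.zpowers x)) ψ = 0 := hk
        rw [hk', zero_mul]
    rw [h3, hsum, ← mul_finsum_mem, hirr,
      co1 ℓ M hM (B.C W) (B'.i x) (ix_El hFq B'.i x) _ (hloc x hx).2.2.blk.ix]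
    obtain ⟨l1, l2, l3⟩ := hloc x hx
    have hn := (nsd ℓ M hM h2 V₀ G E₀ hFq B hB ⊤ (rw_top hFq)).2.2.2.2.2.2
    have h5 := vt_eh B W l1 l2 l3.blk.blk.1.1 1
    have h6 : eh M (fun t : Cu (B'.i x) => B'.b (Subgroup.zpowers x) t) 1 =
        (Nat.card (Cu (B'.i x)) : ℂ)⁻¹ *
          ∑ᶠ κ ∈ IrrE M (fun t : Cu (B'.i x) => B'.b (Subgroup.zpowers x) t), κ 1 ^ 2 := by
      unfold eh
      congr 1
      refine finsum_mem_congr rfl fun κ _ => ?_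
      rw [inv_one, sq]
    have h7 : Nat.card (Cu (B'.i x)) = Nat.card (B.C ⊤) := Nat.card_congr (cuE B W l1).toEquiv
    have h8 : (((1 : Cu (B'.i x)) : B.C W) : G) = 1 := rfl
    rw [h6, h7, h8, hn] at h5
    have hC0 : (Nat.card (B.C ⊤) : ℂ) ≠ 0 := by exact_mod_cast Nat.card_pos.ne'
    have h9 : ∑ᶠ κ ∈ IrrE M (fun t : Cu (B'.i x) => B'.b (Subgroup.zpowers x) t), κ 1 ^ 2 =
        (ℓ : ℂ) ^ 2 * B.D ⊤ ^ 2 := by
      field_simp at h5
      exact h5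
    rw [h9]
    field_simp
  · have h1 : {τ : MulAut V₀ | τ ∈ St E₀ W ∧ τ x = y} = ∅ := by
      ext τ
      constructor
      · rintro ⟨h3, h4⟩
        exact hτ ⟨τ, h3, h4⟩
      · rintro ⟨⟩
    rw [h1, Set.ncard_empty, Nat.cast_zero, mul_zero, hsum,
      ← mul_finsum_mem, hirr]
    have key := co2 ℓ M hM (B.C W) (B'.i x) (B'.i y) (ix_El hFq B'.i x) (ix_El hFq B'.i y)
      (B'.b (Subgroup.zpowers x)) (B'.b (Subgroup.zpowers y)) (hloc x hx).2.2.blk.ix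
      (hloc y hy).2.2.blk.ix (by
        intro h hh
        obtain ⟨l1, l2, l3⟩ := hloc x hx
        obtain ⟨m1, m2, m3⟩ := hloc y hy
        have hcu : Cu (B'.i y) = Cu (B'.i x) := by
          ext t
          rw [l1, m1]
        have hnor : h ∈ Subgroup.normalizer ((Cu (B'.i x) : Subgroup (B.C W)) :
            Set (B.C W)) := by
          rw [Subgroup.mem_normalizer_iff]
          intro t
          have h3 : t ∈ Cu (B'.i x) ↔ t ∈ Cu (B'.i y) := by rw [hcu]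
          change t ∈ Cu (B'.i x) ↔ h * t * h⁻¹ ∈ Cu (B'.i x)
          rw [h3, Subgroup.mem_centralizer_singleton_iff, Subgroup.mem_centralizer_singleton_iff,
            ← hh]
          constructor
          · intro h4
            calc h * t * h⁻¹ * (h * B'.i y * h⁻¹) = h * (t * B'.i y) * h⁻¹ := by group
              _ = h * (B'.i y * t) * h⁻¹ := by rw [h4]
              _ = h * B'.i y * h⁻¹ * (h * t * h⁻¹) := by group
          · intro h4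
            have h5 : h * (t * B'.i y) * h⁻¹ = h * (B'.i y * t) * h⁻¹ := by
              calc h * (t * B'.i y) * h⁻¹ = h * t * h⁻¹ * (h * B'.i y * h⁻¹) := by group
                _ = h * B'.i y * h⁻¹ * (h * t * h⁻¹) := h4
                _ = h * (B'.i y * t) * h⁻¹ := by group
            exact mul_left_cancel (mul_right_cancel h5)
        have hby : Bx (Cu (B'.i x)) (B'.b (Subgroup.zpowers y)) := by
          rw [← hcu]
          exact m3.blk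
        rcases l3.blk.dich (hby.cj hnor) with h3 | h3
        · exfalso
          obtain ⟨t, ht, ht2⟩ := fus ℓ M hM (B.C W) B'.e B'.i.range B'.g hB'.ld (B'.i x)
            ⟨x, rfl⟩ (B'.i y) ⟨y, rfl⟩ _ _ l3 m3 h hh h3.symm
          obtain ⟨σ, hσ, hσ2⟩ := hB'.act t ht
          rw [hσ2] at ht2
          have h4 : σ y = x := hB'.inj ht2
          refine hτ ⟨σ⁻¹, (St E₀ W).inv_mem hσ, ?_⟩
          rw [← h4]
          exact MulAut.inv_apply_self V₀ σ y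
        · exact h3)
    rw [key, mul_zero]

/-- part (2) -/
theorem vxo2 (hM : (ℓ : integralClosure ℤ ℂ) ∈ M) (h2 : ℓ ≠ 2) (rda : RdaStmt)
    (hlnk : HLnkStmt) (wbo : K9.WboStmt) (hFq : Fq ℓ V₀ E₀) {B : Bk (FF M) V₀ G}
    (hB : Sd ℓ M E₀ B) {W : Subgroup V₀} (hW : W ≠ ⊥) {g : G} (hg : g ∈ B.C W)
    (hgr : Reg ℓ g) {x : V₀} (hx : x ∉ W) :
    ∑ᶠ χ ∈ Ch B W, χ g * starRingEnd ℂ (vx B χ x) = 0 := by
  classical
  have := Fintype.ofFinite G
  obtain ⟨B', hB', he, -, hi, hloc⟩ := loc_dat hM h2 rda hlnk hFq hB.toSb hW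
  have hid : IsIdem (fun t : B.C W => B.b W t) := (hB.lb W).blk.blk.1
  have hreg : ∀ t : B.C W, Reg ℓ t ↔ Reg ℓ (t : G) := by
    intro t
    unfold Reg
    rw [Subgroup.orderOf_coe]
  have hix : B.i x ^ ℓ = 1 := by rw [← map_pow, hFq.ex, map_one]
  have hix1 : B.i x ≠ 1 := by
    intro h
    apply hx
    have h5 : x = 1 := hB.inj (by rw [h, map_one])
    rw [h5]
    exact W.one_mem
  have hCi : B.i x ∈ B.C W := by
    rw [← hi x]
    exact (B'.i x).2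
  have hexp : ∀ χ : G → ℂ, χ g * starRingEnd ℂ (vx B χ x) =
      ∑ s : G, (starRingEnd ℂ (bh B ⊤ s) / B.D ⊤) *
        (χ g * starRingEnd ℂ (χ (B.i x * s))) := by
    intro χ
    unfold vx
    rw [finsum_eq_sum_of_fintype, map_div₀, map_sum, Complex.conj_natCast, Finset.sum_div,
      Finset.mul_sum]
    refine Finset.sum_congr rfl fun s _ => ?_
    rw [map_mul]
    ring
  rw [finsum_mem_congr rfl fun χ _ => hexp χ,
    finsum_mem_eq_finite_toFinset_sum _ (ch_fin B W), Finset.sum_comm]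
  refine Finset.sum_eq_zero fun s _ => ?_
  by_cases hs0 : bh B ⊤ s = 0
  · refine Finset.sum_eq_zero fun χ _ => ?_
    rw [hs0, map_zero, zero_div, zero_mul]
  have hsC : s ∈ B.C ⊤ := by
    by_contra h
    exact hs0 (cnd_bh_off B ⊤ h)
  have hsR : Reg ℓ s := by
    by_contra h
    exact hs0 (cnd_bh_sing hM hB.toSb ⊤ h)
  have hcomm : Commute (B.i x) s := by
    have h1 := Subgroup.mem_centralizer_iff.1 hsC (B.i x) ⟨x, Subgroup.mem_top x, rfl⟩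
    exact h1
  have hsing : ¬ Reg ℓ (B.i x * s) := not_reg_mul hix hix1 hcomm hsR
  have hsW : s ∈ B.C W := cnd_C_anti B le_top hsC
  obtain ⟨h, hh⟩ : ∃ h : B.C W, h = ⟨B.i x * s, (B.C W).mul_mem hCi hsW⟩ := ⟨_, rfl⟩
  have hsing' : ¬ Reg ℓ h⁻¹ := by
    intro h1
    apply hsing
    unfold Reg at h1 ⊢
    rw [orderOf_inv, ← Subgroup.orderOf_coe, hh] at h1
    exact h1
  have hg' : Reg ℓ (⟨g, hg⟩ : B.C W)⁻¹ := by
    unfold Reg
    rw [orderOf_inv, ← Subgroup.orderOf_coe]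
    exact hgr
  rw [← Finset.mul_sum, ← finsum_mem_eq_finite_toFinset_sum (fun χ : G → ℂ =>
    χ g * starRingEnd ℂ (χ (B.i x * s))) (ch_fin B W)]
  have h3 : ∑ᶠ χ ∈ Ch B W, χ g * starRingEnd ℂ (χ (B.i x * s)) =
      ∑ᶠ χ ∈ Ch B W, (fun ψ : B.C W → ℂ => ψ ⟨g, hg⟩ * starRingEnd ℂ (ψ h))
        (fun t : B.C W => χ t) := by
    refine finsum_mem_congr rfl fun χ _ => ?_
    rw [hh]
  rw [h3, sum_ch B W (fun ψ : B.C W → ℂ => ψ ⟨g, hg⟩ * starRingEnd ℂ (ψ h))]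
  have h4 := wbo ℓ M hM (B.C W) _ hid (⟨g, hg⟩ : B.C W)⁻¹ h⁻¹ hg' hsing'
  have h5 : ∑ᶠ ψ ∈ IrrE M (fun t : B.C W => B.b W t), (fun ψ : B.C W → ℂ =>
      ψ ⟨g, hg⟩ * starRingEnd ℂ (ψ h)) ψ = 0 := by
    rw [← h4]
    refine finsum_mem_congr rfl fun ψ hψ => ?_
    rw [inv_inv, H94.irr_star hψ.1]
  rw [h5, mul_zero]

/-- Fourier transform on `W` -/
theorem iv_four {B : Bk (FF M) V₀ G} {W : Subgroup V₀} (hcW : Nat.card W = ℓ)
    (hnu : ∀ χ ∈ Ch B W, ∃ ν' ∈ lin V₀, ∀ w ∈ W, nu B χ w = ν' w) {ν : V₀ → ℂ}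
    (hν : ν ∈ lin V₀) (f : (G → ℂ) → ℂ) :
    (ℓ : ℂ) * ∑ᶠ χ ∈ Iv B W ν, f χ =
      ∑ᶠ w : W, ν (w : V₀)⁻¹ * ∑ᶠ χ ∈ Ch B W, nu B χ w * f χ := by
  classical
  have := Fintype.ofFinite W
  have hS := ch_fin B W
  have hI : (Iv B W ν).Finite := hS.subset fun χ h => h.1
  have hL : SO.H33.Ln (fun w : W => ν w) := ⟨hν.1, fun v w => hν.2 v w⟩
  have hkey : ∀ χ ∈ Ch B W, ∑ w : W, ν (w : V₀)⁻¹ * nu B χ w =
      if χ ∈ Iv B W ν then (ℓ : ℂ) else 0 := by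
    intro χ hχ
    obtain ⟨ν', hν', h1⟩ := hnu χ hχ
    have hL' : SO.H33.Ln (fun w : W => ν' w) := ⟨hν'.1, fun v w => hν'.2 v w⟩
    by_cases hin : χ ∈ Iv B W ν
    · rw [if_pos hin]
      have h3 : ∀ w : W, ν (w : V₀)⁻¹ * nu B χ w = 1 := by
        intro w
        rw [hin.2 w w.2, ← hν.2, inv_mul_cancel, hν.1]
      rw [Finset.sum_congr rfl fun w _ => h3 w, Finset.sum_const, Finset.card_univ,
        ← Nat.card_eq_fintype_card, hcW, nsmul_eq_mul, mul_one]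
    · rw [if_neg hin]
      have hne : (fun w : W => ν w) ≠ fun w : W => ν' w := by
        intro h
        apply hin
        refine ⟨hχ, fun w hw => ?_⟩
        rw [h1 w hw]
        exact (congrFun h ⟨w, hw⟩).symm
      rw [← hL.orth hL' hne]
      refine Finset.sum_congr rfl fun w _ => ?_
      rw [h1 w w.2]
      rfl
  have hsub : (Iv B W ν) = {χ | χ ∈ Ch B W ∧ χ ∈ Iv B W ν} := by
    ext χ
    exact ⟨fun h => ⟨h.1, h⟩, fun h => h.2⟩
  have h1 : ∑ᶠ χ ∈ Iv B W ν, f χ = ∑ χ ∈ hS.toFinset, if χ ∈ Iv B W ν then f χ else 0 := by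
    rw [← Finset.sum_filter, finsum_mem_eq_finite_toFinset_sum _ hI]
    refine Finset.sum_congr ?_ fun _ _ => rfl
    ext χ
    rw [Set.Finite.mem_toFinset, Finset.mem_filter, Set.Finite.mem_toFinset]
    exact ⟨fun h => ⟨h.1, h⟩, fun h => h.2⟩
  rw [h1, finsum_eq_sum_of_fintype, Finset.mul_sum]
  have h3 : ∀ w : W, ν (w : V₀)⁻¹ * ∑ᶠ χ ∈ Ch B W, nu B χ w * f χ =
      ∑ χ ∈ hS.toFinset, ν (w : V₀)⁻¹ * nu B χ w * f χ := by
    intro w
    rw [finsum_mem_eq_finite_toFinset_sum _ hS, Finset.mul_sum]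
    refine Finset.sum_congr rfl fun χ _ => ?_
    rw [mul_assoc]
  rw [Finset.sum_congr rfl fun w _ => h3 w, Finset.sum_comm]
  refine Finset.sum_congr rfl fun χ hχ => ?_
  rw [← Finset.sum_mul, hkey χ (hS.mem_toFinset.1 hχ)]
  split_ifs
  · rfl
  · rw [mul_zero, zero_mul]

end a

/-- VXO -/
theorem vxo (gea : GeaStmt) (vxm : VxmStmt) (rda : SD.RdaStmt) (hlnk : SO.HLnkStmt)
    (smg : T3.SmgStmt) (co1 : T3.Co1Stmt) (co2 : T3.Co2Stmt) (fus : T3.FusStmt)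
    (wbo : K9.WboStmt) (nsd : SD.NsdStmt) : VxoStmt := by
  classical
  intro ℓ hℓ M _ hM h2 V₀ G _ _ _ _ E₀ hFq B hB W hW
  have hRL := hW
  obtain ⟨⟨-, -, -, -, g5, -, g7, -⟩, -, -, -, -, -, g12, -⟩ := gea ℓ V₀ E₀ hFq W hW
  have hv := fun χ hχ => (vxm ℓ M hM h2 V₀ G E₀ hFq B hB W hW χ hχ).2.1
  have hinv : ∀ χ ∈ Ch B W, ∀ τ ∈ St E₀ W, ∀ x, vx B χ (τ x) = vx B χ x :=
    fun χ hχ => (hv χ hχ).2.2.1
  have hnu : ∀ χ ∈ Ch B W, ∃ ν' ∈ lin V₀, ∀ w ∈ W, nu B χ w = ν' w := by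
    intro χ hχ
    obtain ⟨ν', h1, h3⟩ := (hv χ hχ).2.2.2.1
    exact ⟨ν', h1.1, h3.2⟩
  have P1 := fun x (hx : x ∉ W) y (hy : y ∉ W) =>
    vxo1 hM h2 rda hlnk smg co1 co2 fus nsd hFq hB g7 hinv hx hy
  have P2 := fun g (hg : g ∈ B.C W) (hgr : Reg ℓ g) x (hx : x ∉ W) =>
    vxo2 hM h2 rda hlnk wbo hFq hB g7 hg hgr hx
  have hk : ∀ x ∈ kW E₀ W, x ≠ 1 → ∀ w ∈ W, w * x ∉ W := by
    intro x hx hx1 w hw h
    apply hx1
    have h3 : x ∈ W := by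
      have h4 := W.mul_mem (W.inv_mem hw) h
      rwa [inv_mul_cancel_left] at h4
    have h5 : x ∈ W ⊓ kW E₀ W := ⟨h3, hx⟩
    rw [g5] at h5
    exact Subgroup.mem_bot.1 h5
  have hℓ0 : (ℓ : ℂ) ≠ 0 := Nat.cast_ne_zero.2 hℓ.out.ne_zero
  refine ⟨P1, P2, ?_, ?_⟩
  · intro ν hν x hx hx1 y hy hy1
    apply mul_left_cancel₀ hℓ0
    rw [iv_four hRL.1 hnu hν.1]
    have := Fintype.ofFinite W
    rw [finsum_eq_sum_of_fintype, Finset.sum_eq_single 1]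
    · have h3 : ∑ᶠ χ ∈ Ch B W, nu B χ ((1 : W) : V₀) *
          (vx B χ x * starRingEnd ℂ (vx B χ y)) =
          ∑ᶠ χ ∈ Ch B W, vx B χ x * starRingEnd ℂ (vx B χ y) := by
        refine finsum_mem_congr rfl fun χ hχ => ?_
        have h4 := (hv χ hχ).1 1 W.one_mem x
        rw [one_mul] at h4
        rw [← mul_assoc]
        change nu B χ 1 * vx B χ x * _ = _
        rw [← h4]
      rw [h3, P1 x (fun h => hk x hx hx1 1 W.one_mem (by rw [one_mul]; exact h)) y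
        (fun h => hk y hy hy1 1 W.one_mem (by rw [one_mul]; exact h))]
      have h5 : ν (((1 : W) : V₀))⁻¹ = 1 := by
        rw [Subgroup.coe_one, inv_one, hν.1.1]
      rw [h5]
      ring
    · intro w _ hw
      have h3 : ∑ᶠ χ ∈ Ch B W, nu B χ (w : V₀) *
          (vx B χ x * starRingEnd ℂ (vx B χ y)) =
          ∑ᶠ χ ∈ Ch B W, vx B χ (w * x) * starRingEnd ℂ (vx B χ y) := by
        refine finsum_mem_congr rfl fun χ hχ => ?_
        rw [(hv χ hχ).1 w w.2 x, mul_assoc]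
      rw [h3, P1 _ (hk x hx hx1 w w.2) y
        (fun h => hk y hy hy1 1 W.one_mem (by rw [one_mul]; exact h))]
      have h4 : {τ : MulAut V₀ | τ ∈ St E₀ W ∧ τ ((w : V₀) * x) = y} = ∅ := by
        ext τ
        constructor
        · rintro ⟨h5, h6⟩
          exfalso
          apply hw
          rw [map_mul, h5.2 w w.2] at h6
          have h7 : (w : V₀) ∈ kW E₀ W := by
            have h8 : (w : V₀) = y * (τ x)⁻¹ := by rw [← h6, mul_inv_cancel_right]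
            rw [h8]
            exact (kW E₀ W).mul_mem hy ((kW E₀ W).inv_mem (g12 τ h5 x hx).1)
          have h9 : (w : V₀) ∈ W ⊓ kW E₀ W := ⟨w.2, h7⟩
          rw [g5] at h9
          exact Subtype.ext (Subgroup.mem_bot.1 h9)
        · rintro ⟨⟩
      rw [h4, Set.ncard_empty, Nat.cast_zero, mul_zero, mul_zero]
    · intro h
      exact absurd (Finset.mem_univ _) h
  · intro ν hν g hg hgr x hx hx1
    have h3 : (ℓ : ℂ) * ∑ᶠ χ ∈ Iv B W ν, χ g * starRingEnd ℂ (vx B χ x) = 0 := by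
      rw [iv_four hRL.1 hnu hν.1]
      have h4 : ∀ w : W, ν (w : V₀)⁻¹ * ∑ᶠ χ ∈ Ch B W, nu B χ w *
          (χ g * starRingEnd ℂ (vx B χ x)) = 0 := by
        intro w
        have h5 : ∑ᶠ χ ∈ Ch B W, nu B χ w * (χ g * starRingEnd ℂ (vx B χ x)) =
            ∑ᶠ χ ∈ Ch B W, χ g * starRingEnd ℂ (vx B χ ((w : V₀)⁻¹ * x)) := by
          refine finsum_mem_congr rfl fun χ hχ => ?_
          have h6 := ((hv χ hχ).2.2.2.2.2 _ (W.inv_mem w.2)).1
          rw [inv_inv] at h6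
          rw [(hv χ hχ).1 _ (W.inv_mem w.2) x, map_mul, h6]
          ring
        rw [h5, P2 g hg hgr _ (hk x hx hx1 _ (W.inv_mem w.2)), mul_zero]
      rw [finsum_congr h4, finsum_zero]
    exact (mul_eq_zero.1 h3).resolve_left hℓ0

end Pool.Agent.PP.SE.H49
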