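import Pool.Agent.ASE.Stmts2
import Pool.Agent.ASD.Stmts3
import Pool.Agent.ASD.Stmts4
import Pool.Agent.ASO.StmtsH
import Pool.Agent.Helper49_ASD.CND
import Pool.Agent.Helper49_ASE.CHG
import Pool.Agent.Helper98_AT3.Fxs

/-!
# Squad ASE, tools for the rows VXO and VXG
-/

open scoped BigOperators

set_option autoImplicit false

noncomputable section

namespace Pool.Agent.PP.SE.H49

open Pool.Agent.Helper51_AWC Pool.Agent.Helper79_WRA Pool.Agent.PP Pool.Agent.PP.KF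
open Pool.Agent.PP.K9 Pool.Agent.PP.K9.H97 Pool.Agent.PP.H75 Pool.Agent.PP.T3 Pool.Agent.PP.SO
open Pool.Agent.PP.SD
open Pool.Agent.PP.SD.H49 (cnd_bh_mem cnd_bh_off cnd_bh_sing cnd_C_anti cnd_cu_pow)

attribute [local instance] Ideal.Quotient.field

section gen

variable {V₀ G : Type} [CommGroup V₀] [Group G] {M : Ideal (integralClosure ℤ ℂ)} [M.IsMaximal]

theorem ch_fin [Finite G] (B : Bk (FF M) V₀ G) (W : Subgroup V₀) : (Ch B W).Finite := by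
  refine Set.Finite.of_finite_image (f := fun (χ : G → ℂ) => fun t : B.C W => χ t)
    ((T3.H41.irrE_fin M (fun t : B.C W => B.b W t)).subset ?_) ?_
  · rintro _ ⟨χ, hχ, rfl⟩
    exact hχ.2
  · intro χ hχ χ' hχ' h
    funext x
    by_cases hx : x ∈ B.C W
    · exact congrFun h ⟨x, hx⟩
    · rw [hχ.1 x hx, hχ'.1 x hx]

theorem sum_ch [Finite G] (B : Bk (FF M) V₀ G) (W : Subgroup V₀) (F : (B.C W → ℂ) → ℂ) :
    ∑ᶠ χ ∈ Ch B W, F (fun t : B.C W => χ t) =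
      ∑ᶠ ψ ∈ IrrE M (fun t : B.C W => B.b W t), F ψ := by
  refine finsum_mem_eq_of_bijOn (fun (χ : G → ℂ) => fun t : B.C W => χ t) ⟨?_, ?_, ?_⟩ ?_
  · intro χ hχ
    exact hχ.2
  · intro χ hχ χ' hχ' h
    funext x
    by_cases hx : x ∈ B.C W
    · exact congrFun h ⟨x, hx⟩
    · rw [hχ.1 x hx, hχ'.1 x hx]
  · intro κ' hκ'
    have h1 : (fun t : B.C W => H75.ext0 (B.C W) κ' t) = κ' := by
      funext t
      exact H75.ext0_apply _ _ _
    refine ⟨H75.ext0 (B.C W) κ', ⟨H75.ext0_supp _ _, ?_⟩, h1⟩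
    rw [h1]
    exact hκ'
  · intro χ _
    rfl

/-- the isomorphism of the centralisers -/
def cuE (B : Bk (FF M) V₀ G) (W : Subgroup V₀) {X : Subgroup (B.C W)}
    (hX : ∀ t : B.C W, t ∈ X ↔ (t : G) ∈ B.C ⊤) : X ≃* B.C ⊤ where
  toFun t := ⟨((t : B.C W) : G), (hX t).1 t.2⟩
  invFun t := ⟨⟨(t : G), cnd_C_anti B le_top t.2⟩, (hX _).2 t.2⟩
  left_inv _ := rfl
  right_inv _ := rfl
  map_mul' _ _ := rfl

theorem vt_eh [Finite G] (B : Bk (FF M) V₀ G) (W : Subgroup V₀) {X : Subgroup (B.C W)}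
    (hX : ∀ t : B.C W, t ∈ X ↔ (t : G) ∈ B.C ⊤) {β : B.C W → FF M}
    (hβ : ∀ t, β t = B.b ⊤ t) (hcl : IsCl fun t : X => β t) (t : X) :
    eh M (fun t : X => β t) t = bh B ⊤ ((t : B.C W) : G) := by
  have h3 := T3.H62.eh_equiv (M := M) (cuE B W hX) (b := fun t : X => β t) hcl t
  have h4 : (fun y : B.C ⊤ => (fun t : X => β t) ((cuE B W hX).symm y)) =
      fun y : B.C ⊤ => B.b ⊤ y := by
    funext y
    exact hβ _
  rw [h4] at h3
  rw [← h3]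
  exact (cnd_bh_mem B ⊤ ((cuE B W hX) t)).symm

theorem vt_gv [Finite G] (B : Bk (FF M) V₀ G) (W : Subgroup V₀) {X : Subgroup (B.C W)}
    (hX : ∀ t : B.C W, t ∈ X ↔ (t : G) ∈ B.C ⊤) {β : B.C W → FF M}
    (hβ : ∀ t, β t = B.b ⊤ t) (hcl : IsCl fun t : X => β t) (w : B.C W) (χ : G → ℂ) :
    gv M X w β (fun t => χ t) = ∑ᶠ s : G, bh B ⊤ s * χ (w * s) := by
  classical
  have := Fintype.ofFinite G
  rw [H75.sum_sub (B.C W) (fun s : G => bh B ⊤ s * χ (w * s)) (fun s hs => by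
    rw [cnd_bh_off B ⊤ (fun h => hs (cnd_C_anti B le_top h)), zero_mul])]
  rw [H75.sum_sub X (fun t : B.C W => bh B ⊤ t * χ (w * t)) (fun t ht => by
    rw [cnd_bh_off B ⊤ (fun h => ht ((hX t).2 h)), zero_mul])]
  unfold gv gbv
  refine finsum_congr fun t => ?_
  rw [vt_eh B W hX hβ hcl]
  rfl

end gen

section loc

variable {ℓ : ℕ} [hℓ : Fact ℓ.Prime] {M : Ideal (integralClosure ℤ ℂ)} [M.IsMaximal]
  {V₀ G : Type} [CommGroup V₀] [Finite V₀] [Group G] [Finite G] {E₀ : Subgroup (MulAut V₀)}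

/-- the local datum of `W` -/
theorem loc_dat (hM : (ℓ : integralClosure ℤ ℂ) ∈ M) (h2 : ℓ ≠ 2) (rda : RdaStmt)
    (hlnk : HLnkStmt) (hFq : Fq ℓ V₀ E₀) {B : Bk (FF M) V₀ G} (hB : Sb ℓ M E₀ B)
    {W : Subgroup V₀} (hW : W ≠ ⊥) : ∃ B' : Bk (FF M) V₀ (B.C W),
    Sb ℓ M (St E₀ W) B' ∧ B'.e = (fun t : B.C W => B.b W t) ∧
    B'.g = (fun t : B.C W => B.g t) ∧ (∀ v, (B'.i v : G) = B.i v) ∧
    ∀ x, x ∉ W → (∀ t : B.C W, t ∈ Cu (B'.i x) ↔ (t : G) ∈ B.C ⊤) ∧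
      (∀ t : B.C W, B'.b (Subgroup.zpowers x) t = B.b ⊤ t) ∧
      Lc B'.e B'.i.range B'.g (B'.i x) (B'.b (Subgroup.zpowers x)) := by
  obtain ⟨-, B', hB', he, hg, hi, hb, hC, -, -⟩ := rda ℓ M hM h2 V₀ G E₀ hFq B hB W
  refine ⟨B', hB', funext he, funext hg, hi, fun x hx => ?_⟩
  have htop : W ⊔ Subgroup.zpowers x = ⊤ := SO.H33.sup_top hFq.cd hW hx
  obtain ⟨hCu, hLc, -⟩ := hlnk ℓ M hM V₀ (St E₀ W) (B.C W) B' hB' x
  refine ⟨fun t => ?_, fun t => ?_, hLc⟩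
  · rw [hCu, hC, htop]
  · rw [hb, htop]

omit hℓ [Finite V₀] [Finite G] in
theorem ix_El (hFq : Fq ℓ V₀ E₀) {H : Type} [Group H] (i : V₀ →* H) (x : V₀) : El ℓ (i x) :=
  ⟨1, by rw [pow_one, ← map_pow, hFq.ex, map_one]⟩

omit [Finite V₀] [Finite G] in
/-- the product of an element of order `ℓ` and a commuting regular element is not regular -/
theorem not_reg_mul {H : Type} [Group H] {u s : H} (hu : u ^ ℓ = 1) (hu1 : u ≠ 1)
    (hc : Commute u s) (hs : Reg ℓ s) : ¬ Reg ℓ (u * s) := by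
  intro h
  apply hu1
  unfold Reg at h hs
  have h1 : Commute (u * s) s⁻¹ := (hc.mul_left (Commute.refl s)).inv_right
  have h3 := h1.orderOf_mul_dvd_lcm
  rw [mul_inv_cancel_right, orderOf_inv] at h3
  have h4 : (orderOf u).Coprime ℓ := by
    refine Nat.Coprime.coprime_dvd_left (h3.trans (Nat.lcm_dvd_mul _ _)) ?_
    exact Nat.Coprime.mul_left h hs
  have h5 : orderOf u ∣ ℓ := orderOf_dvd_of_pow_eq_one hu
  exact orderOf_eq_one_iff.1 (Nat.Coprime.eq_one_of_dvd h4 h5)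

end loc

end Pool.Agent.PP.SE.H49
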